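import Pool.Agent.Lib.helper1.Pa3

set_option autoImplicit false

namespace Pool.Agent.Results.MP_ab635e_lc.Hull

open MeasureTheory Set Filter Topology
open scoped ENNReal NNReal unitInterval

/-- the total variation metric `sup_A |P A - Q A|` -/
noncomputable def rho {X : Type*} [MeasurableSpace X] (P Q : ProbabilityMeasure X) : ℝ :=
  ⨆ A : {A : Set X // MeasurableSet A}, |(P : Measure X).real A - (Q : Measure X).real A|

/-- finitely many `rho`-balls of radius `ε` cover `S`, for every `ε > 0` -/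
def TB {X : Type*} [MeasurableSpace X] (S : Set (ProbabilityMeasure X)) : Prop :=
  ∀ ε > 0, ∃ T : Finset (ProbabilityMeasure X), ∀ P ∈ S, ∃ Q ∈ T, rho P Q < ε

/-- the `rho`-closure -/
def clos {X : Type*} [MeasurableSpace X] (S : Set (ProbabilityMeasure X)) :
    Set (ProbabilityMeasure X) :=
  {P | ∀ ε > 0, ∃ Q ∈ S, rho P Q < ε}

/-- the convex hull -/
def hull {X : Type*} [MeasurableSpace X] (S : Set (ProbabilityMeasure X)) :
    Set (ProbabilityMeasure X) :=
  {P | ∃ (l : ℕ) (w : Fin l → ℝ≥0) (R : Fin l → ProbabilityMeasure X), (∀ i, R i ∈ S) ∧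
    ∑ i, w i = 1 ∧ (P : Measure X) = ∑ i, w i • (R i : Measure X)}

/-- the pseudometric `d_P` -/
noncomputable def dd {X : Type*} [MeasurableSpace X] (P : ProbabilityMeasure X) (f g : X → I) : ℝ :=
  ∫ x, |(f x : ℝ) - g x| ∂(P : Measure X)

/-- `F` is PAC learnable with respect to `S` by a (jointly measurable) algorithm with values
in `F` -/
def Learn {X : Type*} [MeasurableSpace X] (F : Set (X → I)) (S : Set (ProbabilityMeasure X)) :
    Prop :=
  ∃ A : (m : ℕ) → (Fin m → X × I) → X → I, (∀ m s, A m s ∈ F) ∧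
    (∀ m, Measurable fun p : (Fin m → X × I) × X => A m p.1 p.2) ∧
    ∀ ε > 0, Tendsto (fun m => ⨆ P ∈ S, ⨆ f ∈ F, Measure.pi (fun _ : Fin m => (P : Measure X))
      {x | ε < dd P f (A m fun i => (x i, f (x i)))}) atTop (𝓝 0)

theorem result {X : Type*} [MeasurableSpace X] (F : Set (X → I)) (hF : ∀ f ∈ F, Measurable f)
    (S : Set (ProbabilityMeasure X)) (hS : TB S) (h : Learn F S) :
    Learn F (clos S) ∧ Learn F (hull S) ∧ Learn F (clos (hull S)) :=
  Pool.Agent.Lib.helper1.Pa.final hF hS h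

end Pool.Agent.Results.MP_ab635e_lc.Hull
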